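import Pool.Agent.Q45.ML.OF

/-!
# `ord_𝔮(L(M, t)/Ω(t))` for spinor `L`-functions from smoothed sums of Hecke eigenvalues

Let `F` be a Siegel eigenform of genus `2`, level `1` and weight `Sym^j det^k`, `E` its coefficient field,
`w = j + 2k - 3`, and for each embedding `τ` of `E` let `α τ p i`, `i < 4`, be the spinor Satake parameters in the motivic
normalisation, `|α τ p i| ≤ p^{w/2}`, so that `P p = ∏_i (1 - α τ p i X)` is the image under `τ` of a polynomial over `E`.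
Let `L τ` be the entire spinor `L`-function and `t` a critical integer, `Ω τ ≠ 0` the components of the period. For
`γ > π/2` put

`S_τ(T) = ∑_p ∑_{m ≥ 1} (∑_i (α τ p i)^m / (m p^{mt})) e^{iγ m log p/T} / Γ(1 + m log p/T)`.

Then `e^{S_τ(T)} = L_τ(t) + O(1/T)`, and for a prime ideal `𝔮` of `𝓞_E` and `n ≥ 0`: there is `e ∈ E` with
`L_τ(t) = τ(e) Ω τ` for all `τ` and `D e ∈ 𝔮^n` for some integer `D ≥ 1` outside `𝔮` if and only if for some such `D` the
vectors `(D e^{S_τ(T)}/Ω τ)_τ` approach the lattice `𝔮^n ⊂ ℂ^{Hom(E, ℂ)}` along one sequence `T → ∞`.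
-/

set_option autoImplicit false

namespace Pool.Agent.Results.MP_78858f_nt.PrimeToQDenominators

open Filter Topology Asymptotics Polynomial Pool.Agent.Q45.ML NumberField

/-- the term at `(p, m)`, `m = z.2 + 1`: `(∑_i (α p i)^m / (m p^{mt})) e^{iγ m log p/T} / Γ(1 + m log p/T)` -/
noncomputable def term (α : Nat.Primes → Fin 4 → ℂ) (t : ℤ) (γ T : ℝ) (z : Nat.Primes × ℕ) : ℂ :=
  (∑ j, α z.1 j ^ (z.2 + 1)) / ((z.2 + 1) * (z.1 : ℂ) ^ (t * (z.2 + 1 : ℕ))) *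
    (Complex.exp ((γ * ((z.2 + 1) * Real.log (z.1 : ℝ) / T) : ℝ) * Complex.I) /
      (Real.Gamma (1 + (z.2 + 1) * Real.log (z.1 : ℝ) / T) : ℂ))

/-- the smoothed sum -/
noncomputable def S (α : Nat.Primes → Fin 4 → ℂ) (t : ℤ) (γ T : ℝ) : ℂ := ∑' z, term α t γ T z

/-- the image of the ideal `I` in `ℂ^{Hom(E, ℂ)}` -/
def lattice {E : Type} [Field E] [NumberField E] (I : Ideal (𝓞 E)) : Set ((E →+* ℂ) → ℂ) :=
  {x | ∃ a ∈ I, ∀ τ : E →+* ℂ, x τ = τ (a : E)}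

theorem term_eq (α : Nat.Primes → Fin 4 → ℂ) (t : ℤ) (γ T : ℝ) (z : Nat.Primes × ℕ) :
    term α t γ T z = sterm (fun p : Nat.Primes => (p : ℝ)) α t γ T z := by
  unfold term sterm
  congr 3
  have e : ((((z.2 : ℝ) + 1) * (t : ℝ) : ℝ) : ℂ) = ((t * (z.2 + 1 : ℕ) : ℤ) : ℂ) := by
    push_cast; ring
  rw [e, Complex.cpow_intCast]
  push_cast
  rfl

theorem lattice_closed {E : Type} [Field E] [NumberField E] (I : Ideal (𝓞 E)) :
    IsClosed (lattice I) := by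
  refine isClosed_of_closure_subset fun x hx => ?_
  have hA : (lattice I ∩ Metric.closedBall 0 (‖x‖ + 1)).Finite :=
    (canonicalEmbedding.integerLattice.inter_ball_finite E (‖x‖ + 1)).subset (by
      rintro y ⟨⟨a, -, ha⟩, hy⟩
      refine ⟨?_, hy⟩
      rw [← lattice_eq]
      exact ⟨a, funext fun τ => (ha τ).symm⟩)
  by_contra hxK
  have hxA : x ∈ (lattice I ∩ Metric.closedBall 0 (‖x‖ + 1))ᶜ := fun h => hxK h.1
  obtain ⟨ε, hε, hball⟩ := Metric.isOpen_iff.1 hA.isClosed.isOpen_compl x hxA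
  obtain ⟨y, hy, hd⟩ := Metric.mem_closure_iff.1 hx (min ε 1) (lt_min hε one_pos)
  refine hball (a := y) ?_ ⟨hy, ?_⟩
  · rw [Metric.mem_ball, dist_comm]
    exact hd.trans_le (min_le_left _ _)
  · rw [Metric.mem_closedBall, dist_zero_right]
    have h1 : dist x y < 1 := hd.trans_le (min_le_right _ _)
    have h2 : ‖y‖ ≤ ‖x‖ + ‖y - x‖ := by
      have := norm_add_le x (y - x)
      simpa using this
    rw [dist_comm, dist_eq_norm] at h1
    linarith

theorem result (E : Type) [Field E] [NumberField E] {w : ℕ} (P : Nat.Primes → E[X])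
    (α : (E →+* ℂ) → Nat.Primes → Fin 4 → ℂ)
    (hP : ∀ τ p, (P p).map τ = ∏ j, (1 - C (α τ p j) * X))
    (hα : ∀ τ p j, ‖α τ p j‖ ≤ (p : ℝ) ^ ((w : ℝ) / 2))
    (L : (E →+* ℂ) → ℂ → ℂ) (hent : ∀ τ, Differentiable ℂ (L τ))
    (hL : ∀ τ, ∀ s : ℂ, (w : ℝ) / 2 + 1 < s.re →
      HasProd (fun p : Nat.Primes => (eval₂ τ ((p : ℂ) ^ (-s)) (P p))⁻¹) (L τ s))
    (t : ℤ) (Ω : (E →+* ℂ) → ℂ) (hΩ : ∀ τ, Ω τ ≠ 0) (q : Ideal (𝓞 E)) (_hq : q.IsPrime)
    {γ : ℝ} (hγ : Real.pi / 2 < γ) :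
    (∀ τ, ∀ T : ℝ, 0 < T → Summable fun z => ‖term (α τ) t γ T z‖) ∧
    (∀ τ, (fun T : ℝ => Complex.exp (S (α τ) t γ T) - L τ t) =O[atTop] (fun T : ℝ => 1 / T)) ∧
    ∀ n : ℕ, ((∃ e : E, (∀ τ : E →+* ℂ, L τ t = τ e * Ω τ) ∧
        ∃ D : ℕ, (D : 𝓞 E) ∉ q ∧ ∃ a ∈ q ^ n, (D : E) * e = a) ↔
      ∃ D : ℕ, (D : 𝓞 E) ∉ q ∧ ∃ x : ℕ → ℝ, Tendsto x atTop atTop ∧
        Tendsto (fun i => Metric.infDist
          (fun τ => (D : ℂ) * (Complex.exp (S (α τ) t γ (x i)) / Ω τ)) (lattice (q ^ n))) atTop (𝓝 0)) := by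
  set θ : ℝ := max ((w : ℝ) / 2) t with hθ
  have hθ1 : (w : ℝ) / 2 ≤ θ := le_max_left _ _
  have hθ0 : (t : ℝ) ≤ θ := le_max_right _ _
  have hE : ∀ τ, Eul 4 (fun p : Nat.Primes => (p : ℝ)) (α τ) θ 1 := fun τ =>
    eul_q fun p j => max_bound p (hα τ p j) t
  have hS : ∀ τ T, smooth (fun p : Nat.Primes => (p : ℝ)) (α τ) t γ T = S (α τ) t γ T := by
    intro τ T
    unfold smooth S
    simp only [term_eq]
  have hval : ∀ τ, (fun T : ℝ => Complex.exp (S (α τ) t γ T) - L τ t) =O[atTop]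
      (fun T : ℝ => 1 / T) := by
    intro τ
    have h1 := (hE τ).value (F := L τ) (s₀ := t) (by linarith)
      (fun x _ _ => ((hent τ).analyticAt _).meromorphicAt)
      (fun s hs => by
        refine (hL τ s (by linarith)).congr_fun fun p => ?_
        rw [eval_prod' (hP τ p), Finset.prod_inv_distrib]
        simp) ((hent τ).analyticAt _) hγ
    simp only [hS, Complex.ofReal_intCast] at h1
    exact h1
  refine ⟨fun τ T hT => ?_, hval, fun n => ?_⟩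
  · simp only [term_eq]
    exact (hE τ).sterm_summable t γ hT
  · have hlim : ∀ D : ℕ, Tendsto (fun T : ℝ => fun τ : E →+* ℂ =>
        (D : ℂ) * (Complex.exp (S (α τ) t γ T) / Ω τ)) atTop (𝓝 fun τ => D * (L τ t / Ω τ)) :=
      fun D => tendsto_pi_nhds.2 fun τ => ((tendsto_of_rate (hval τ)).div_const _).const_mul _
    have hiff : ∀ D : ℕ, ((fun τ : E →+* ℂ => (D : ℂ) * (L τ t / Ω τ)) ∈ lattice (q ^ n)) ↔
        ∃ x : ℕ → ℝ, Tendsto x atTop atTop ∧ Tendsto (fun i => Metric.infDist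
          (fun τ => (D : ℂ) * (Complex.exp (S (α τ) t γ (x i)) / Ω τ)) (lattice (q ^ n))) atTop (𝓝 0) := by
      intro D
      have hne : (lattice (q ^ n)).Nonempty := ⟨fun _ => 0, 0, (q ^ n).zero_mem, fun τ => by simp⟩
      exact (closed_tfae (lattice_closed _) hne (hlim D)).out 0 2
    constructor
    · rintro ⟨e, he, D, hD, a, ha, hae⟩
      refine ⟨D, hD, (hiff D).1 ⟨a, ha, fun τ => ?_⟩⟩
      show (D : ℂ) * (L τ t / Ω τ) = τ (a : E)
      rw [he τ, mul_div_cancel_right₀ _ (hΩ τ), ← hae, map_mul, map_natCast]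
    · rintro ⟨D, hD, hx⟩
      obtain ⟨a, ha, hτ⟩ := (hiff D).2 hx
      have hD0 : D ≠ 0 := by
        rintro rfl
        exact hD (by simp)
      have hDE : (D : E) ≠ 0 := by exact_mod_cast hD0
      refine ⟨(a : E) / D, fun τ => ?_, D, hD, a, ha, by field_simp⟩
      have hDc : (D : ℂ) ≠ 0 := by exact_mod_cast hD0
      have h1 : (D : ℂ) * (L τ t / Ω τ) = τ (a : E) := hτ τ
      have h2 := hΩ τ
      rw [map_div₀, map_natCast]
      field_simp at h1 ⊢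
      linear_combination h1

end Pool.Agent.Results.MP_78858f_nt.PrimeToQDenominators
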